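import Pool.Agent.Run7.h450.CE.Iface

/-!
# CE, piece ON: orthonormalisation in a C*-algebra
-/

set_option autoImplicit false

open Filter Topology Run7.h450.CE

namespace Run7.h929.CE

variable {E : Type} [CStarAlgebra E] [PartialOrder E] [StarOrderedRing E]

/-- the approximate inverse of a positive element -/
theorem approx_inv (g : E) (hg : 0 ≤ g) (ε : ℝ) (hε : 0 < ε) :
    ∃ R : E, ‖g - g * R * g‖ ≤ ε ∧ ∀ b : E, Commute b g → Commute b R := by
  have hgs : IsSelfAdjoint g := IsSelfAdjoint.of_nonneg hg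
  refine ⟨cfc (fun t : ℝ => (t + ε)⁻¹) g, ?_, ?_⟩
  · have hcont : ContinuousOn (fun t : ℝ => (t + ε)⁻¹) (spectrum ℝ g) := by
      refine ContinuousOn.inv₀ (by fun_prop) ?_
      intro t ht
      have := spectrum_nonneg_of_nonneg hg ht
      exact (by linarith : (0 : ℝ) < t + ε).ne'
    have h1 : g - g * cfc (fun t : ℝ => (t + ε)⁻¹) g * g =
        cfc (fun t : ℝ => t - t * (t + ε)⁻¹ * t) g := by
      rw [cfc_sub (fun t : ℝ => t) (fun t : ℝ => t * (t + ε)⁻¹ * t) g (by fun_prop)
        ((continuousOn_id.mul hcont).mul continuousOn_id), cfc_id' ℝ g,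
        cfc_mul (fun t : ℝ => t * (t + ε)⁻¹) (fun t : ℝ => t) g (continuousOn_id.mul hcont)
          continuousOn_id,
        cfc_mul (fun t : ℝ => t) (fun t : ℝ => (t + ε)⁻¹) g continuousOn_id hcont, cfc_id' ℝ g]
    rw [h1]
    apply norm_cfc_le hε.le
    intro t ht
    have ht0 : 0 ≤ t := spectrum_nonneg_of_nonneg hg ht
    have h2 : 0 < t + ε := by linarith
    have h3 : t - t * (t + ε)⁻¹ * t = ε * (t / (t + ε)) := by
      field_simp
      ring
    rw [h3, Real.norm_eq_abs, abs_of_nonneg (by positivity)]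
    have h4 : t / (t + ε) ≤ 1 := by
      rw [div_le_one h2]
      linarith
    calc ε * (t / (t + ε)) ≤ ε * 1 := mul_le_mul_of_nonneg_left h4 hε.le
      _ = ε := mul_one ε
  · intro b hb
    exact (Commute.cfc_real hb.symm _).symm

theorem t_ON : S_ON := by
  intro E _ _ _ Y H c hc0 hc1 hH0 hH1 hYH hcH
  set G : E := star Y * Y with hG
  have hG0 : 0 ≤ G := star_mul_self_nonneg Y
  set g : E := CFC.sqrt G with hg
  set s : E := CFC.sqrt H with hs
  have hg0 : 0 ≤ g := CFC.sqrt_nonneg G
  have hs0 : 0 ≤ s := CFC.sqrt_nonneg H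
  have hgg : g * g = G := CFC.sqrt_mul_sqrt_self G hG0
  have hss : s * s = H := CFC.sqrt_mul_sqrt_self H hH0
  have hgs : star g = g := (IsSelfAdjoint.of_nonneg hg0).star_eq
  have hsst : star s = s := (IsSelfAdjoint.of_nonneg hs0).star_eq
  -- `H ≤ 2 G`
  have hHG : H ≤ (2 : ℝ) • G := by
    have h1 : (2 : ℝ) • ((1 - c) • H) ≤ (2 : ℝ) • G := smul_le_smul_of_nonneg_left hcH (by norm_num)
    refine le_trans ?_ h1
    rw [smul_smul]
    calc H = (1 : ℝ) • H := (one_smul ℝ H).symm
      _ ≤ (2 * (1 - c)) • H := smul_le_smul_of_nonneg_right (by linarith) hH0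
  -- the key inequality
  have key : ∀ K : E, ‖K * s‖ ^ 2 ≤ 2 * ‖K * g‖ ^ 2 := by
    intro K
    have h1 : ‖K * s‖ ^ 2 = ‖K * H * star K‖ := by
      rw [sq, ← CStarRing.norm_self_mul_star, star_mul, hsst, ← hss]
      congr 1
      noncomm_ring
    have h2 : ‖K * g‖ ^ 2 = ‖K * G * star K‖ := by
      rw [sq, ← CStarRing.norm_self_mul_star, star_mul, hgs, ← hgg]
      congr 1
      noncomm_ring
    rw [h1, h2]
    have h3 : K * H * star K ≤ K * ((2 : ℝ) • G) * star K :=
      star_right_conjugate_le_conjugate hHG K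
    have h4 : 0 ≤ K * H * star K := star_right_conjugate_nonneg hH0 K
    refine (CStarAlgebra.norm_le_norm_of_nonneg_of_le h4 h3).trans ?_
    rw [mul_smul_comm, smul_mul_assoc, norm_smul]
    norm_num
  have key' : ∀ K : E, ‖K * s‖ ≤ 2 * ‖K * g‖ := by
    intro K
    have h1 := key K
    have h2 : ‖K * s‖ ^ 2 ≤ (2 * ‖K * g‖) ^ 2 := by nlinarith [sq_nonneg ‖K * g‖]
    exact le_of_sq_le_sq h2 (by positivity)
  -- approximate inverses
  have hR : ∀ n : ℕ, ∃ R : E, ‖g - g * R * g‖ ≤ 1 / ((n : ℝ) + 1) ∧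
      ∀ b : E, Commute b g → Commute b R := fun n => approx_inv g hg0 _ (by positivity)
  choose R hR1 hR2 using hR
  let X : ℕ → E := fun n => Y * R n * s
  have hYK : ∀ K : E, ‖Y * K‖ = ‖g * K‖ := by
    intro K
    have h1 : ‖Y * K‖ * ‖Y * K‖ = ‖g * K‖ * ‖g * K‖ := by
      rw [← CStarRing.norm_star_mul_self, ← CStarRing.norm_star_mul_self, star_mul, star_mul, hgs]
      congr 1
      have h2 : star K * star Y * (Y * K) = star K * G * K := by
        rw [hG]; noncomm_ring
      have h3 : star K * g * (g * K) = star K * G * K := by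
        rw [← hgg]; noncomm_ring
      rw [h2, h3]
    exact (mul_self_inj (norm_nonneg _) (norm_nonneg _)).mp h1
  have hcau : CauchySeq X := by
    refine cauchySeq_of_le_tendsto_0 (fun N : ℕ => 4 * (1 / ((N : ℝ) + 1))) ?_ ?_
    · intro n m N hn hm
      rw [dist_eq_norm]
      have h1 : X n - X m = (Y * (R n - R m)) * s := by
        change Y * R n * s - Y * R m * s = _
        noncomm_ring
      rw [h1]
      refine (key' _).trans ?_
      have h2 : ‖Y * (R n - R m) * g‖ = ‖(g - g * R m * g) - (g - g * R n * g)‖ := by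
        rw [mul_assoc, hYK]
        congr 1
        noncomm_ring
      rw [h2]
      have h3 := norm_sub_le (g - g * R m * g) (g - g * R n * g)
      have h4 : 1 / ((n : ℝ) + 1) ≤ 1 / ((N : ℝ) + 1) := by
        apply one_div_le_one_div_of_le (by positivity)
        have : (N : ℝ) ≤ n := by exact_mod_cast hn
        linarith
      have h5 : 1 / ((m : ℝ) + 1) ≤ 1 / ((N : ℝ) + 1) := by
        apply one_div_le_one_div_of_le (by positivity)
        have : (N : ℝ) ≤ m := by exact_mod_cast hm
        linarith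
      have h6 := hR1 n
      have h7 := hR1 m
      linarith
    · have := (tendsto_one_div_add_atTop_nhds_zero_nat (𝕜 := ℝ)).const_mul 4
      simpa using this
  obtain ⟨X', hX'⟩ := cauchySeq_tendsto_of_complete hcau
  have hgRs : Tendsto (fun n => g * R n * s) atTop (𝓝 s) := by
    rw [tendsto_iff_norm_sub_tendsto_zero]
    have h0 : Tendsto (fun n : ℕ => 2 * (1 / ((n : ℝ) + 1))) atTop (𝓝 0) := by
      have := (tendsto_one_div_add_atTop_nhds_zero_nat (𝕜 := ℝ)).const_mul 2
      simpa using this
    refine squeeze_zero (fun _ => norm_nonneg _) (fun n => ?_) h0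
    rw [norm_sub_rev]
    have h1 : s - g * R n * s = (1 - g * R n) * s := by noncomm_ring
    rw [h1]
    refine (key' _).trans ?_
    have h2 : (1 - g * R n) * g = g - g * R n * g := by noncomm_ring
    rw [h2]
    have := hR1 n
    linarith
  have hXX : star X' * X' = H := by
    have h1 : Tendsto (fun n => star (X n) * X n) atTop (𝓝 (star X' * X')) :=
      ((continuous_star.tendsto _).comp hX').mul hX'
    have h2 : Tendsto (fun n => star (g * R n * s) * (g * R n * s)) atTop (𝓝 (star s * s)) :=
      ((continuous_star.tendsto _).comp hgRs).mul hgRs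
    have h3 : ∀ n, star (X n) * X n = star (g * R n * s) * (g * R n * s) := by
      intro n
      change star (Y * R n * s) * (Y * R n * s) = _
      simp only [star_mul, hgs]
      have h4 : star s * (star (R n) * star Y) * (Y * R n * s) = star s * star (R n) * G * R n * s := by
        rw [hG]; noncomm_ring
      have h5 : star s * (star (R n) * g) * (g * R n * s) = star s * star (R n) * G * R n * s := by
        rw [← hgg]; noncomm_ring
      rw [h4, h5]
    rw [hsst, hss] at h2
    exact tendsto_nhds_unique h1 (h2.congr fun n => (h3 n).symm)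
  have hYX : star Y * X' = g * s := by
    have h1 : Tendsto (fun n => star Y * X n) atTop (𝓝 (star Y * X')) :=
      tendsto_const_nhds.mul hX'
    have h2 : Tendsto (fun n => g * (g * R n * s)) atTop (𝓝 (g * s)) :=
      tendsto_const_nhds.mul hgRs
    refine tendsto_nhds_unique h1 (h2.congr fun n => ?_)
    change g * (g * R n * s) = star Y * (Y * R n * s)
    have h4 : star Y * (Y * R n * s) = G * R n * s := by
      rw [hG]; noncomm_ring
    rw [h4, ← hgg]
    noncomm_ring
  have hXY : star X' * Y = s * g := by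
    have h1 := congrArg star hYX
    rw [star_mul, star_mul, star_star, hgs, hsst] at h1
    exact h1
  refine ⟨X', hXX, ?_, ?_⟩
  · -- the distance
    have h1 : ‖X' - Y‖ = ‖s - g‖ := by
      have h2 : ‖X' - Y‖ * ‖X' - Y‖ = ‖s - g‖ * ‖s - g‖ := by
        rw [← CStarRing.norm_star_mul_self, ← CStarRing.norm_star_mul_self]
        congr 1
        have h3 : star (X' - Y) * (X' - Y) = star X' * X' - star X' * Y - star Y * X' + star Y * Y := by
          rw [star_sub]; noncomm_ring
        have h4 : star (s - g) * (s - g) = s * s - s * g - g * s + g * g := by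
          rw [star_sub, hsst, hgs]; noncomm_ring
        rw [h3, h4, hXX, hXY, hYX, hss, hgg]
      exact (mul_self_inj (norm_nonneg _) (norm_nonneg _)).mp h2
    rw [h1]
    have h0c : 0 ≤ 1 - c := by linarith
    have hsq : 0 ≤ √(1 - c) := Real.sqrt_nonneg _
    have hsq2 : √(1 - c) * √(1 - c) = 1 - c := Real.mul_self_sqrt h0c
    have h2 : g ≤ s := CFC.sqrt_le_sqrt _ _ hYH
    have h3 : CFC.sqrt ((1 - c) • H) = √(1 - c) • s := by
      apply CFC.sqrt_unique
      · rw [smul_mul_smul_comm, hsq2, hss]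
      · exact smul_nonneg hsq hs0
    have h4 : √(1 - c) • s ≤ g := by
      rw [← h3]
      exact CFC.sqrt_le_sqrt _ _ hcH
    have h5 : s - g ≤ (1 - √(1 - c)) • s := by
      rw [sub_smul, one_smul]
      exact sub_le_sub_left h4 s
    have h6 : ‖s - g‖ ≤ ‖(1 - √(1 - c)) • s‖ :=
      CStarAlgebra.norm_le_norm_of_nonneg_of_le (sub_nonneg.mpr h2) h5
    refine h6.trans ?_
    have h7 : √(1 - c) ≤ 1 := Real.sqrt_le_iff.mpr ⟨by norm_num, by linarith⟩
    have h8 : 1 - c ≤ √(1 - c) := by nlinarith
    rw [norm_smul, Real.norm_eq_abs, abs_of_nonneg (by linarith)]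
    have h9 : ‖s‖ ≤ 1 := by
      have h10 : ‖H‖ ≤ 1 := (CStarAlgebra.norm_le_one_iff_of_nonneg H hH0).mpr hH1
      have h11 : ‖s‖ * ‖s‖ = ‖H‖ := by
        rw [← CStarRing.norm_star_mul_self, hsst, hss]
      nlinarith [norm_nonneg s]
    nlinarith [norm_nonneg s]
  · -- the intertwining
    intro a a' haY hcG hcHH
    have h1 : Commute a' g := by
      rw [hg, CFC.sqrt_eq_cfc]
      exact (Commute.cfc_nnreal hcG.symm _).symm
    have h2 : Commute a' s := by
      rw [hs, CFC.sqrt_eq_cfc]
      exact (Commute.cfc_nnreal hcHH.symm _).symm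
    have h3 : ∀ n, a * X n = X n * a' := by
      intro n
      change a * (Y * R n * s) = Y * R n * s * a'
      calc a * (Y * R n * s) = (a * Y) * R n * s := by noncomm_ring
        _ = Y * (a' * R n) * s := by rw [haY]; noncomm_ring
        _ = Y * R n * (a' * s) := by rw [(hR2 n a' h1).eq]; noncomm_ring
        _ = Y * R n * s * a' := by rw [h2.eq]; noncomm_ring
    have h4 : Tendsto (fun n => a * X n) atTop (𝓝 (a * X')) := tendsto_const_nhds.mul hX'
    have h5 : Tendsto (fun n => X n * a') atTop (𝓝 (X' * a')) := hX'.mul tendsto_const_nhds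
    exact tendsto_nhds_unique h4 (h5.congr fun n => (h3 n).symm)

end Run7.h929.CE
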