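import Pool.Agent.Run7.h450.CE.Iface

/-!
# CE, piece RON: orthonormalisation of a row over a C*-algebra
-/

set_option autoImplicit false

open Filter Topology Run7.h450.CE

namespace Run7.h929.CE

/-- a test element for positivity -/
theorem test_elt {E : Type} [CStarAlgebra E] [PartialOrder E] [StarOrderedRing E] (m : E)
    (hm : IsSelfAdjoint m) : ∃ a e : E, star a = a ∧ a * m * a = -(star (e * a) * (e * a)) ∧
      (e * a = 0 → 0 ≤ m) := by
  set a : E := m⁻ with ha
  have ha0 : 0 ≤ a := CFC.negPart_nonneg m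
  have has : IsSelfAdjoint a := IsSelfAdjoint.of_nonneg ha0
  obtain ⟨e, he⟩ := (CStarAlgebra.nonneg_iff_eq_star_mul_self).mp ha0
  have h1 : a * m * a = -(a * a * a) := by
    have h2 : m = m⁺ - a := (CFC.posPart_sub_negPart m hm).symm
    have h3 : a * m⁺ = 0 := CFC.negPart_mul_posPart m
    have h4 : a * m = a * (m⁺ - a) := congrArg (a * ·) h2
    rw [h4, mul_sub, h3, zero_sub, neg_mul]
  have h5 : a * a * a = star (e * a) * (e * a) := by
    rw [star_mul, has.star_eq]
    calc a * a * a = a * (star e * e) * a := by rw [← he]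
      _ = a * star e * (e * a) := by simp only [mul_assoc]
  refine ⟨a, e, has.star_eq, by rw [h1, h5], ?_⟩
  intro h12
  rw [← CFC.negPart_eq_zero_iff m hm]
  have h13 : a * a * a = 0 := by rw [h5, h12, mul_zero]
  have h14 : star (a * a) * (a * a) = 0 := by
    rw [star_mul, has.star_eq]
    calc a * a * (a * a) = (a * a * a) * a := by simp only [mul_assoc]
      _ = 0 := by rw [h13, zero_mul]
  have h15 : a * a = 0 := (CStarRing.star_mul_self_eq_zero_iff _).mp h14
  have h16 : star a * a = 0 := by rw [has.star_eq, h15]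
  exact (CStarRing.star_mul_self_eq_zero_iff _).mp h16

section crit

variable {B : Type} [CStarAlgebra B] [PartialOrder B] [StarOrderedRing B]
  {M : Type} [Fintype M] [DecidableEq M]

/-- positivity of a matrix over a C*-algebra -/
theorem nonneg_of_forall (m : CStarMatrix M M B) (hm : star m = m)
    (h : ∀ b : M → B, 0 ≤ ∑ κ, ∑ l, star (b κ) * m κ l * b l) : 0 ≤ m := by
  obtain ⟨a, e, has, h1, hpos⟩ := test_elt m hm
  have h6 : ∀ l, (a * m * a) l l = ∑ κ, ∑ κ', star (a κ l) * m κ κ' * a κ' l := by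
    intro l
    have e1 : (a * m * a) l l = ∑ κ', (a * m) l κ' * a κ' l := rfl
    rw [e1, Finset.sum_comm]
    refine Finset.sum_congr rfl fun κ' _ => ?_
    have e2 : (a * m) l κ' = ∑ κ, a l κ * m κ κ' := rfl
    rw [e2, Finset.sum_mul]
    refine Finset.sum_congr rfl fun κ _ => ?_
    have h7 : star (a κ l) = a l κ := by
      have h8 : (star a) l κ = star (a κ l) := rfl
      rw [← h8, has]
    rw [h7]
  have h8 : ∀ l, ∀ κ, (e * a) κ l = 0 := by
    intro l
    have h9 : 0 ≤ (a * m * a) l l := by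
      rw [h6 l]
      exact h fun κ => a κ l
    rw [h1] at h9
    have h10 : (-(star (e * a) * (e * a))) l l = - ∑ κ, star ((e * a) κ l) * (e * a) κ l := rfl
    rw [h10] at h9
    have h11 : ∑ κ, star ((e * a) κ l) * (e * a) κ l = 0 :=
      le_antisymm (neg_nonneg.mp h9) (Finset.sum_nonneg fun κ _ => star_mul_self_nonneg _)
    rw [Finset.sum_eq_zero_iff_of_nonneg (fun κ _ => star_mul_self_nonneg _)] at h11
    intro κ
    exact (CStarRing.star_mul_self_eq_zero_iff _).mp (h11 κ (Finset.mem_univ _))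
  apply hpos
  apply CStarMatrix.ext
  intro κ l
  exact h8 l κ

end crit

theorem pos_nonneg {B : Type} [CStarAlgebra B] [PartialOrder B] [StarOrderedRing B] {x : B}
    (h : Pos x) : 0 ≤ x := by
  obtain ⟨c, rfl⟩ := h
  exact star_mul_self_nonneg c

theorem t_RON : S_ON → S_RON := by
  intro hON B _ M _ _ N P j y h c hc0 hc1 hPs hPP hPy hh hh1 hA hB
  let _ := CStarAlgebra.spectralOrder B
  let _ := CStarAlgebra.spectralOrderedRing B
  rcases isEmpty_or_nonempty M with hM | ⟨⟨κ₀⟩⟩
  · refine ⟨fun _ => 0, fun κ => isEmptyElim κ, fun κ => isEmptyElim κ, ?_⟩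
    rw [Finset.univ_eq_empty, Finset.sum_empty, norm_zero]
    positivity
  -- the matrices
  obtain ⟨Y, hY⟩ : ∃ Y : CStarMatrix M M B, ∀ i κ, Y i κ = if i = κ₀ then y κ else 0 :=
    ⟨CStarMatrix.ofMatrix (Matrix.of fun i κ => if i = κ₀ then y κ else 0), fun _ _ => rfl⟩
  obtain ⟨H, hH⟩ : ∃ H : CStarMatrix M M B, ∀ κ l, H κ l = if κ = l then h κ else 0 :=
    ⟨CStarMatrix.ofMatrix (Matrix.of fun κ l => if κ = l then h κ else 0), fun _ _ => rfl⟩
  have hhs : ∀ κ, star (h κ) = h κ := by
    intro κ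
    obtain ⟨d, hd⟩ := hh κ
    rw [hd, star_mul, star_star]
  have hYY : ∀ κ l, (star Y * Y) κ l = star (y κ) * y l := by
    intro κ l
    have e1 : (star Y * Y) κ l = ∑ i, star (Y i κ) * Y i l := rfl
    rw [e1, Finset.sum_eq_single κ₀]
    · rw [hY, hY, if_pos rfl, if_pos rfl]
    · intro i _ hi
      rw [hY, if_neg hi, star_zero, zero_mul]
    · intro h0
      exact absurd (Finset.mem_univ _) h0
  have hHs : star H = H := by
    apply CStarMatrix.ext
    intro κ l
    have e1 : (star H) κ l = star (H l κ) := rfl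
    rw [e1, hH, hH]
    by_cases hkl : κ = l
    · rw [if_pos hkl.symm, if_pos hkl, hkl, hhs]
    · rw [if_neg (Ne.symm hkl), if_neg hkl, star_zero]
  have hsum1 : ∀ b : M → B, ∑ κ, ∑ l, star (b κ) * H κ l * b l = ∑ κ, star (b κ) * h κ * b κ := by
    intro b
    refine Finset.sum_congr rfl fun κ _ => ?_
    rw [Finset.sum_eq_single κ]
    · rw [hH, if_pos rfl]
    · intro l _ hl
      rw [hH, if_neg (Ne.symm hl), mul_zero, zero_mul]
    · intro h0
      exact absurd (Finset.mem_univ _) h0
  have hsum2 : ∀ b : M → B, ∑ κ, ∑ l, star (b κ) * (star Y * Y) κ l * b l =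
      star (∑ κ, y κ * b κ) * (∑ κ, y κ * b κ) := by
    intro b
    rw [star_sum, Finset.sum_mul]
    refine Finset.sum_congr rfl fun κ _ => ?_
    rw [Finset.mul_sum]
    refine Finset.sum_congr rfl fun l _ => ?_
    rw [hYY, star_mul]
    simp only [mul_assoc]
  have hYYs : star (star Y * Y) = star Y * Y := by rw [star_mul, star_star]
  -- the order relations
  have h1 : 0 ≤ H := by
    apply nonneg_of_forall H hHs
    intro b
    rw [hsum1]
    refine Finset.sum_nonneg fun κ _ => ?_
    exact star_left_conjugate_nonneg (pos_nonneg (hh κ)) (b κ)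
  have h2 : H ≤ 1 := by
    rw [← sub_nonneg]
    apply nonneg_of_forall (1 - H) (by rw [star_sub, star_one, hHs])
    intro b
    have e1 : ∀ κ l, (1 - H) κ l = if κ = l then 1 - h κ else 0 := by
      intro κ l
      have e2 : (1 - H) κ l = (1 : CStarMatrix M M B) κ l - H κ l := rfl
      rw [e2, CStarMatrix.one_apply, hH]
      by_cases hkl : κ = l
      · rw [if_pos hkl, if_pos hkl, if_pos hkl]
      · rw [if_neg hkl, if_neg hkl, if_neg hkl, sub_zero]
    refine Finset.sum_nonneg fun κ _ => ?_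
    rw [Finset.sum_eq_single κ]
    · rw [e1, if_pos rfl]
      exact star_left_conjugate_nonneg (pos_nonneg (hh1 κ)) (b κ)
    · intro l _ hl
      rw [e1, if_neg (Ne.symm hl), mul_zero, zero_mul]
    · intro h0
      exact absurd (Finset.mem_univ _) h0
  have h3 : star Y * Y ≤ H := by
    rw [← sub_nonneg]
    apply nonneg_of_forall (H - star Y * Y) (by rw [star_sub, hHs, hYYs])
    intro b
    have e1 : ∑ κ, ∑ l, star (b κ) * (H - star Y * Y) κ l * b l =
        ∑ κ, star (b κ) * h κ * b κ - star (∑ κ, y κ * b κ) * (∑ κ, y κ * b κ) := by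
      rw [← hsum1, ← hsum2, ← Finset.sum_sub_distrib]
      refine Finset.sum_congr rfl fun κ _ => ?_
      rw [← Finset.sum_sub_distrib]
      refine Finset.sum_congr rfl fun l _ => ?_
      have e2 : (H - star Y * Y) κ l = H κ l - (star Y * Y) κ l := rfl
      rw [e2, mul_sub, sub_mul]
    rw [e1]
    exact pos_nonneg (hA b)
  have h4 : (1 - c) • H ≤ star Y * Y := by
    rw [← sub_nonneg]
    have hsm : star ((1 - c) • H) = (1 - c) • H := by rw [star_smul, hHs, star_trivial]
    apply nonneg_of_forall (star Y * Y - (1 - c) • H) (by rw [star_sub, hYYs, hsm])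
    intro b
    have e1 : ∑ κ, ∑ l, star (b κ) * (star Y * Y - (1 - c) • H) κ l * b l =
        star (∑ κ, y κ * b κ) * (∑ κ, y κ * b κ) -
          ((1 - c : ℝ) : ℂ) • ∑ κ, star (b κ) * h κ * b κ := by
      rw [← hsum1, ← hsum2, Finset.smul_sum, ← Finset.sum_sub_distrib]
      refine Finset.sum_congr rfl fun κ _ => ?_
      rw [Finset.smul_sum, ← Finset.sum_sub_distrib]
      refine Finset.sum_congr rfl fun l _ => ?_
      have e2 : (star Y * Y - (1 - c) • H) κ l = (star Y * Y) κ l - ((1 - c : ℝ) : ℂ) • H κ l := rfl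
      rw [e2, mul_sub, sub_mul, mul_smul_comm, smul_mul_assoc]
    rw [e1]
    exact pos_nonneg (hB b)
  obtain ⟨X, hX1, hX2, hX3⟩ := hON (CStarMatrix M M B) Y H c hc0 hc1 h1 h2 h3 h4
  -- only the row `κ₀` of `X` is nonzero
  obtain ⟨e, he⟩ : ∃ e : CStarMatrix M M B, ∀ i κ, e i κ = if i = κ ∧ i = κ₀ then 1 else 0 :=
    ⟨CStarMatrix.ofMatrix (Matrix.of fun i κ => if i = κ ∧ i = κ₀ then 1 else 0), fun _ _ => rfl⟩
  have hmul : ∀ (p : B) (a Z : CStarMatrix M M B), (∀ i κ, a i κ = if i = κ ∧ i = κ₀ then p else 0) →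
      ∀ i κ, (a * Z) i κ = if i = κ₀ then p * Z i κ else 0 := by
    intro p a Z ha i κ
    have e1 : (a * Z) i κ = ∑ l, a i l * Z l κ := rfl
    rw [e1, Finset.sum_eq_single i]
    · rw [ha]
      by_cases hi : i = κ₀
      · rw [if_pos ⟨rfl, hi⟩, if_pos hi]
      · rw [if_neg (fun hh => hi hh.2), if_neg hi, zero_mul]
    · intro l _ hl
      rw [ha, if_neg (fun hh => hl hh.1.symm), zero_mul]
    · intro h0
      exact absurd (Finset.mem_univ _) h0
  have hrow : ∀ i κ, i ≠ κ₀ → X i κ = 0 := by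
    have e1 : e * Y = Y * 1 := by
      rw [mul_one]
      apply CStarMatrix.ext
      intro i κ
      rw [hmul 1 e Y he, hY]
      by_cases hi : i = κ₀
      · rw [if_pos hi, if_pos hi, one_mul]
      · rw [if_neg hi, if_neg hi]
    have e2 := hX3 e 1 e1 (Commute.one_left _) (Commute.one_left _)
    intro i κ hi
    have e3 : (e * X) i κ = X i κ := by rw [e2, mul_one]
    rw [hmul 1 e X he, if_neg hi] at e3
    exact e3.symm
  have hXX : ∀ κ l, star (X κ₀ κ) * X κ₀ l = if κ = l then h κ else 0 := by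
    intro κ l
    have e1 : (star X * X) κ l = ∑ i, star (X i κ) * X i l := rfl
    rw [hX1, Finset.sum_eq_single κ₀] at e1
    · rw [← e1, hH]
    · intro i _ hi
      rw [hrow i κ hi, star_zero, zero_mul]
    · intro h0
      exact absurd (Finset.mem_univ _) h0
  refine ⟨fun κ => X κ₀ κ, ?_, hXX, ?_⟩
  · -- the projections
    intro κ
    obtain ⟨a, ha⟩ : ∃ a : CStarMatrix M M B,
        ∀ i l, a i l = if i = l ∧ i = κ₀ then P (j κ) else 0 :=
      ⟨CStarMatrix.ofMatrix (Matrix.of fun i l => if i = l ∧ i = κ₀ then P (j κ) else 0),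
        fun _ _ => rfl⟩
    obtain ⟨a', ha'⟩ : ∃ a' : CStarMatrix M M B,
        ∀ i l, a' i l = if i = l then (if j i = j κ then 1 else 0) else 0 :=
      ⟨CStarMatrix.ofMatrix (Matrix.of fun i l => if i = l then (if j i = j κ then 1 else 0) else 0),
        fun _ _ => rfl⟩
    have hr : ∀ (Z : CStarMatrix M M B) i l, (Z * a') i l = Z i l * (if j l = j κ then 1 else 0) := by
      intro Z i l
      have e1 : (Z * a') i l = ∑ r, Z i r * a' r l := rfl
      rw [e1, Finset.sum_eq_single l]
      · rw [ha', if_pos rfl]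
      · intro r _ hr
        rw [ha', if_neg hr, mul_zero]
      · intro h0
        exact absurd (Finset.mem_univ _) h0
    have hl : ∀ (Z : CStarMatrix M M B) i l, (a' * Z) i l = (if j i = j κ then 1 else 0) * Z i l := by
      intro Z i l
      have e1 : (a' * Z) i l = ∑ r, a' i r * Z r l := rfl
      rw [e1, Finset.sum_eq_single i]
      · rw [ha', if_pos rfl]
      · intro r _ hr
        rw [ha', if_neg (Ne.symm hr), zero_mul]
      · intro h0
        exact absurd (Finset.mem_univ _) h0
    have e1 : a * Y = Y * a' := by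
      apply CStarMatrix.ext
      intro i l
      rw [hmul (P (j κ)) a Y ha, hr, hY]
      by_cases hi : i = κ₀
      · rw [if_pos hi, if_pos hi]
        by_cases hjl : j l = j κ
        · rw [if_pos hjl, mul_one, ← hjl, hPy]
        · rw [if_neg hjl, mul_zero, ← hPy l, ← mul_assoc, hPP, if_neg (Ne.symm hjl), zero_mul]
      · rw [if_neg hi, if_neg hi, zero_mul]
    have e2 : Commute a' (star Y * Y) := by
      apply CStarMatrix.ext
      intro i l
      rw [hl, hr, hYY]
      by_cases hil : j i = j l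
      · rw [hil]
        by_cases hjl : j l = j κ
        · rw [if_pos hjl, mul_one, one_mul]
        · rw [if_neg hjl, mul_zero, zero_mul]
      · have e3 : star (y i) * y l = 0 := by
          rw [← hPy i, ← hPy l, star_mul, hPs]
          calc star (y i) * P (j i) * (P (j l) * y l) = star (y i) * (P (j i) * P (j l)) * y l := by
                simp only [mul_assoc]
            _ = 0 := by rw [hPP, if_neg hil, mul_zero, zero_mul]
        rw [e3, mul_zero, zero_mul]
    have e4 : Commute a' H := by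
      apply CStarMatrix.ext
      intro i l
      rw [hl, hr, hH]
      by_cases hil : i = l
      · rw [if_pos hil, hil]
        by_cases hjl : j l = j κ
        · rw [if_pos hjl, mul_one, one_mul]
        · rw [if_neg hjl, mul_zero, zero_mul]
      · rw [if_neg hil, mul_zero, zero_mul]
    have e5 := hX3 a a' e1 e2 e4
    have e6 : (a * X) κ₀ κ = (X * a') κ₀ κ := by rw [e5]
    rw [hmul (P (j κ)) a X ha, hr, if_pos rfl, if_pos rfl, mul_one] at e6
    exact e6
  · -- the norm
    have e1 : ((X - Y) * star (X - Y)) κ₀ κ₀ = ∑ κ, (X κ₀ κ - y κ) * star (X κ₀ κ - y κ) := by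
      have e2 : ((X - Y) * star (X - Y)) κ₀ κ₀ = ∑ κ, (X κ₀ κ - Y κ₀ κ) * star (X κ₀ κ - Y κ₀ κ) := rfl
      rw [e2]
      refine Finset.sum_congr rfl fun κ _ => ?_
      rw [hY, if_pos rfl]
    change ‖∑ κ, (X κ₀ κ - y κ) * star (X κ₀ κ - y κ)‖ ≤ c ^ 2
    rw [← e1]
    refine (CStarMatrix.norm_entry_le_norm).trans ?_
    have e3 : ‖(X - Y) * star (X - Y)‖ = ‖X - Y‖ * ‖X - Y‖ := CStarRing.norm_self_mul_star
    have e4 : ‖X - Y‖ * ‖X - Y‖ ≤ c ^ 2 := by
      rw [sq]
      exact mul_le_mul hX2 hX2 (norm_nonneg _) hc0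
    exact e3.le.trans e4

end Run7.h929.CE
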